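import Pool.Agent.Helper95.WS.St

/-!
# Project WS: the Frobenius eigenvalues (strong form of W11)
-/

set_option autoImplicit false

namespace Pool.Agent.Helper95.WS

open Polynomial
open scoped Classical

noncomputable section

/-- **W10b.**
PROOF.  First part of the proof of W10: for `y ∈ K`: `ψ(N y) = χ_K(y)`, `y = aeval x f`. -/
def StW10b : Prop := ∀ (F K : Type) [Field F] [Fintype F] [Field K] [Fintype K] [Algebra F K]
  (f : F[X]), ringChar F ≠ 2 →
  SS ((quadraticChar F).ringHomComp (Int.castRingHom ℂ)) f K =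
    ((∑ x : K, (quadraticChar K (aeval x f) : ℤ) : ℤ) : ℂ)

/-- **W12** (Frobenius eigenvalues; contains W11: take `K = F`).  Hypotheses: StW1 StW5 StW6 StW7 StW8 StW9 StW10 StW10b.
PROOF.  As W11: `s'` from W8, card `d - 1`, all `|α| ≤ √q`, `SS ψ f K = - ∑_(α ∈ s') α^r` for every finite `K/F`,
`r = [K : F] ≥ 1` (W7).  `d` odd: `s = s'`.  `d` even: `e = ψ(lc f) ∈ s'` and `s = s'.erase e`. -/
def StW12 : Prop := ∀ (F : Type) [Field F] [Fintype F] (f : F[X]), ringChar F ≠ 2 →
  Squarefree f → 1 ≤ f.natDegree →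
  ∃ s : Multiset ℂ, Multiset.card s = 2 * ((f.natDegree - 1) / 2) ∧
    (∀ ω ∈ s, ‖ω‖ ≤ √(Fintype.card F)) ∧
    ∀ (K : Type) [Field K] [Fintype K] [Algebra F K],
      ((∑ x : K, (quadraticChar K (aeval x f) : ℤ) : ℤ) : ℂ) +
        (if Even f.natDegree then ((quadraticChar F f.leadingCoeff : ℤ) : ℂ) ^ Module.finrank F K
          else 0) = - (s.map (fun ω => ω ^ Module.finrank F K)).sum

end

end Pool.Agent.Helper95.WS
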