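import Pool.Agent.Helper95.WS.M_W12
import Pool.Agent.Helper86.WS.M_W1
import Pool.Agent.Helper42.WS.M_W2
import Pool.Agent.Helper24.WS.M_W3
import Pool.Agent.Helper24.WS.M_W4
import Pool.Agent.Helper6.WS.M_W5
import Pool.Agent.Helper42.WS.M_W6
import Pool.Agent.Helper83.WS.M_W7
import Pool.Agent.Helper42.WS.M_W8
import Pool.Agent.Helper24.WS.M_W9
import Pool.Agent.Helper15.TF.M_F3

/-!
# Project WS: the exact Weil bound for hyperelliptic curves (assembled)
-/

set_option autoImplicit false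

namespace Pool.Agent.Helper95.WS

open NumberField IsDedekindDomain Polynomial
open Pool.Agent.Helper95.TT Pool.Agent.Helper24.TF
open scoped Classical

noncomputable section

theorem w1 : StW1 := Pool.Agent.Helper86.WS.hW1
theorem w2 : StW2 := Pool.Agent.Helper42.WS.hW2
theorem w4 : StW4 := Pool.Agent.Helper24.WS.hW4 (Pool.Agent.Helper24.WS.hW3 w2)
theorem w5 : StW5 := Pool.Agent.Helper6.WS.hW5 w1 w4
theorem w6 : StW6 := Pool.Agent.Helper42.WS.hW6 w1
theorem w7 : StW7 := Pool.Agent.Helper83.WS.hW7 w1 w2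
theorem w8 : StW8 := Pool.Agent.Helper42.WS.hW8
theorem w9 : StW9 := Pool.Agent.Helper24.WS.hW9
theorem w10 : StW10 := Pool.Agent.Helper24.WS.hW10

/-- the exact Weil bound -/
theorem w11 : StW11 := Pool.Agent.Helper83.WS.hW11 w1 w5 w6 w7 w8 w9 w10

/-- the Frobenius eigenvalues -/
theorem w12 : StW12 := hW12 w1 w5 w6 w7 w8 w9 w10 hW10b

/-- the exact Weil bound for the fibres -/
theorem weil_trF (k : Type) [Field k] [NumberField k] (v : Pr k) (h2v : (2 : 𝓞 k) ∉ v.asIdeal)
    (h : (Kv v)[X]) (hd : 1 ≤ h.natDegree) (hs : Squarefree h) :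
    |(trF v h : ℝ)| ≤ (2 * ((h.natDegree - 1) / 2 : ℕ) : ℝ) * √(q v) := by
  haveI := Pool.Agent.Helper15.TF.fin_Kv v
  haveI : v.asIdeal.IsMaximal := v.isMaximal
  letI fld : Field (Kv v) := Ideal.Quotient.field v.asIdeal
  letI : Fintype (Kv v) := Fintype.ofFinite _
  have h2 : (2 : Kv v) ≠ 0 := by
    intro h
    apply h2v
    rw [← Ideal.Quotient.eq_zero_iff_mem]
    rw [map_ofNat]
    exact h
  have hF : ringChar (Kv v) ≠ 2 := by
    intro h
    apply h2
    have := (ringChar.spec (Kv v) 2).2 (by rw [h])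
    exact_mod_cast this
  have htr : (trF v h : ℝ) = (Nat.card (Kv v) : ℝ) + 1 - Pool.Agent.Helper15.TF.ptsG h := by
    unfold trF
    rw [Pool.Agent.Helper15.TF.q_card]
    push_cast
    rfl
  have hq : (Fintype.card (Kv v) : ℝ) = q v := by
    rw [← Nat.card_eq_fintype_card, Pool.Agent.Helper15.TF.q_card]
  have h11 := w11 (Kv v) h hF hs hd
  rw [hq] at h11
  rw [htr, Pool.Agent.Helper15.TF.trG h2 h, abs_neg]
  refine le_trans (le_of_eq ?_) h11
  congr 1
  rw [finsum_eq_sum_of_fintype]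
  push_cast
  congr 1
  · exact Finset.sum_congr rfl fun x _ => Pool.Agent.Helper15.TF.cG_eq _
  · split_ifs
    · exact Pool.Agent.Helper15.TF.cG_eq _
    · rfl

end

end Pool.Agent.Helper95.WS
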