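import Pool.Agent.Helper95.WS.St2
import Pool.Agent.Helper24.WS.M_W10
import Pool.Agent.Helper83.WS.M_W11

/-!
# Project WS, module W12: the Frobenius eigenvalues
-/

set_option autoImplicit false

namespace Pool.Agent.Helper95.WS

open Polynomial
open scoped Classical

noncomputable section

theorem psi_apply {F : Type} [Field F] [Fintype F] (b : F) :
    ((quadraticChar F).ringHomComp (Int.castRingHom ℂ)) b = ((quadraticChar F b : ℤ) : ℂ) := by
  rw [MulChar.ringHomComp_apply]
  rfl

theorem hW10b : StW10b := by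
  intro F K _ _ _ _ _ f hF
  unfold SS
  push_cast
  refine Finset.sum_congr rfl fun x _ => ?_
  rw [psi_apply, Pool.Agent.Helper24.WS.qc_norm hF]

theorem hW12 (hW1 : StW1) (hW5 : StW5) (hW6 : StW6) (hW7 : StW7) (hW8 : StW8) (hW9 : StW9)
    (hW10 : StW10) (hW10b : StW10b) : StW12 := by
  intro F _ _ f hF hsq hd
  set ψ : MulChar F ℂ := (quadraticChar F).ringHomComp (Int.castRingHom ℂ) with hψ
  have hψa : ∀ b : F, ψ b = ((quadraticChar F b : ℤ) : ℂ) := psi_apply
  have hψ1 : ψ ≠ 1 := by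
    rw [hψ]
    exact (MulChar.ringHomComp_ne_one_iff
      (RingHom.injective_int (Int.castRingHom ℂ))).2 (quadraticChar_ne_one hF)
  have hψ2 : ∀ b : F, b ≠ 0 → ψ b ^ 2 = 1 := by
    intro b hb
    rw [hψa]
    exact_mod_cast quadraticChar_sq_one hb
  obtain ⟨-, -, hA0, -⟩ := hW1 F ψ f
  obtain ⟨hAd, hAe⟩ := hW5 F ψ f hψ1 hsq hd
  obtain ⟨s, hcs, hps, hpr⟩ := hW8 f.natDegree (AA ψ f) (PS ψ f) hd hA0 hAd
    (fun n => hW6 F ψ f n)
  set q := Fintype.card F with hq
  have hq0 : (0 : ℝ) ≤ q := Nat.cast_nonneg _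
  -- power sums
  have hpow : ∀ r, 1 ≤ r → ‖(s.map (fun α => α ^ r)).sum‖ ≤
      (8 * f.natDegree + 12) * (√(q : ℝ)) ^ r := by
    intro r hr
    have : Fact (ringChar F).Prime := ⟨CharP.char_is_prime F (ringChar F)⟩
    have : NeZero r := ⟨by omega⟩
    let : Fintype (FiniteField.Extension F (ringChar F) r) := Fintype.ofFinite _
    have h1 := hW10 F (FiniteField.Extension F (ringChar F) r) f hF hsq hd
    rw [← hψ, hW7, FiniteField.finrank_extension, hps r hr, norm_neg] at h1
    have h2 : Fintype.card (FiniteField.Extension F (ringChar F) r) = q ^ r := by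
      rw [Fintype.card_eq_nat_card, FiniteField.natCard_extension, hq, Fintype.card_eq_nat_card]
    rw [h2] at h1
    push_cast at h1
    have h3 : √((q : ℝ) ^ r) = (√(q : ℝ)) ^ r := by
      rw [Real.sqrt_eq_iff_mul_self_eq (by positivity) (by positivity), ← mul_pow,
        Real.mul_self_sqrt hq0]
    rw [h3] at h1
    exact h1
  have hα : ∀ α ∈ s, ‖α‖ ≤ √(q : ℝ) := hW9 s (8 * f.natDegree + 12) (√(q : ℝ))
    (Real.sqrt_nonneg _) hpow
  -- the sum over K
  have hS : ∀ (K : Type) [Field K] [Fintype K] [Algebra F K],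
      ((∑ x : K, (quadraticChar K (aeval x f) : ℤ) : ℤ) : ℂ) =
        - (s.map (fun ω => ω ^ Module.finrank F K)).sum := by
    intro K _ _ _
    rw [← hW10b F K f hF, ← hψ, hW7 F K ψ f, hps _ Module.finrank_pos]
  have hlc : f.leadingCoeff ≠ 0 := leadingCoeff_ne_zero.2 hsq.ne_zero
  by_cases hev : Even f.natDegree
  · have he2 : ψ f.leadingCoeff ^ 2 = 1 := hψ2 _ hlc
    set e := ψ f.leadingCoeff with he
    have he0 : e ≠ 0 := by
      intro h
      rw [h] at he2
      norm_num at he2
    have hmem : e ∈ s := by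
      have h1 := hpr e
      have h2 : ∑ n ∈ Finset.range f.natDegree, AA ψ f n * e ^ (f.natDegree - 1 - n) =
          e ^ (f.natDegree - 1) * ∑ n ∈ Finset.range f.natDegree, e⁻¹ ^ n * AA ψ f n := by
        rw [Finset.mul_sum]
        apply Finset.sum_congr rfl
        intro n hn
        rw [Finset.mem_range] at hn
        have h3 : e ^ (f.natDegree - 1) = e ^ (f.natDegree - 1 - n) * e ^ n := by
          rw [← pow_add]; congr 1; omega
        rw [h3]
        have h4 : e ^ n * e⁻¹ ^ n = 1 := by rw [← mul_pow, mul_inv_cancel₀ he0, one_pow]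
        calc AA ψ f n * e ^ (f.natDegree - 1 - n) =
            e ^ (f.natDegree - 1 - n) * 1 * AA ψ f n := by ring
          _ = e ^ (f.natDegree - 1 - n) * (e ^ n * e⁻¹ ^ n) * AA ψ f n := by rw [h4]
          _ = _ := by ring
      have h5 : ∑ n ∈ Finset.range f.natDegree, e⁻¹ ^ n * AA ψ f n = 0 := by
        apply hAe
        intro b hb
        obtain ⟨k, hk⟩ := hev
        rw [hk, ← two_mul, pow_mul, hψ2 b hb, one_pow]
      rw [h2, h5, mul_zero, Multiset.prod_eq_zero_iff, Multiset.mem_map] at h1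
      obtain ⟨α, hα1, hα2⟩ := h1
      rw [sub_eq_zero] at hα2
      rw [hα2]; exact hα1
    obtain ⟨t, ht⟩ := Multiset.exists_cons_of_mem hmem
    refine ⟨t, ?_, fun ω hω => hα ω (by rw [ht]; exact Multiset.mem_cons_of_mem hω), ?_⟩
    · rw [ht, Multiset.card_cons] at hcs
      obtain ⟨k, hk⟩ := hev
      omega
    · intro K _ _ _
      rw [hS K, if_pos hev, ht, Multiset.map_cons, Multiset.sum_cons, ← hψa, ← he]
      ring
  · refine ⟨s, ?_, hα, ?_⟩
    · rw [hcs]
      rw [Nat.not_even_iff_odd] at hev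
      obtain ⟨k, hk⟩ := hev
      omega
    · intro K _ _ _
      rw [hS K, if_neg hev, add_zero]

end

end Pool.Agent.Helper95.WS
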