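import Mathlib

/-!
# Project WS (for MP_6090f9_nt): the exact Weil bound for hyperelliptic curves over finite fields

`F` a finite field of odd order `q`, `f ∈ F[x]` squarefree of degree `d ≥ 1`, `χ` the quadratic character:
`|∑_x χ(f(x)) + (χ(lc f) if d is even)| ≤ 2 g √q`, `2 g = 2 ⌊(d-1)/2⌋`.

METHOD.  `ψ` a nontrivial multiplicative character, `λ(h) = ψ(resultant h f)` for monic `h`, `A_n = ∑_(deg h = n) λ(h)`.  `A_n = 0`
for `n ≥ d`; `n A_n = ∑_(r=1)^n S_r A_(n-r)` with `S_r` the character sum over the extension of degree `r`; so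
`S_r = - ∑_i α_i^r` for `d - 1` numbers `α_i`, and `|S_r| ≤ C q^(r/2)` (Stepanov) gives `|α_i| ≤ √q`.

Every docstring is a complete proof; `StX` is proved as `theorem hX : StX` (hypotheses = earlier statements, as listed).
-/

set_option autoImplicit false

namespace Pool.Agent.Helper95.WS

open Polynomial
open scoped Classical

noncomputable section

/-- the monic polynomials of degree `n` -/
def Mn (F : Type) [Field F] [Fintype F] (n : ℕ) : Finset F[X] :=
  Finset.univ.image (fun a : Fin n → F => X ^ n + ∑ i, C (a i) * X ^ (i : ℕ))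

/-- the function `λ` on monic polynomials `h` -/
def lam {F : Type} [Field F] (ψ : MulChar F ℂ) (f h : F[X]) : ℂ :=
  ψ (resultant h f h.natDegree f.natDegree)

/-- `A_n` -/
def AA {F : Type} [Field F] [Fintype F] (ψ : MulChar F ℂ) (f : F[X]) (n : ℕ) : ℂ :=
  ∑ h ∈ Mn F n, lam ψ f h

/-- the sum over the irreducible polynomials -/
def PS {F : Type} [Field F] [Fintype F] (ψ : MulChar F ℂ) (f : F[X]) (r : ℕ) : ℂ :=
  ∑ e ∈ r.divisors, ∑ P ∈ (Mn F e).filter Irreducible, (e : ℂ) * lam ψ f P ^ (r / e)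

/-- the character sum over an extension -/
def SS {F : Type} [Field F] (ψ : MulChar F ℂ) (f : F[X]) (K : Type) [Field K] [Fintype K]
    [Algebra F K] : ℂ :=
  ∑ x : K, ψ (Algebra.norm F (aeval x f))

/-- **W1** (monic polynomials).
PROOF.  (i) `natDegree (∑ C (a i) X^i) < n` (or `n = 0`).  Conversely `h = X^n + ∑_(i<n) h.coeff i X^i` (`as_sum_range`).
(ii) `resultant_mul_left` with `n = f.natDegree`, `natDegree (h₁ h₂) = natDegree h₁ + natDegree h₂` for monic polynomials,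
`resultant 1 f 0 _ = 1`, induction for powers.  (iii) `h ↦ P^j h` is a bijection of `Mn F (n - j e)` to the set on the left
(`Monic.of_mul_monic_left`), and (ii). -/
def StW1 : Prop := ∀ (F : Type) [Field F] [Fintype F] (ψ : MulChar F ℂ) (f : F[X]),
  (∀ (n : ℕ) (h : F[X]), h ∈ Mn F n ↔ h.Monic ∧ h.natDegree = n) ∧
  (∀ h₁ h₂ : F[X], h₁.Monic → h₂.Monic → lam ψ f (h₁ * h₂) = lam ψ f h₁ * lam ψ f h₂) ∧
  AA ψ f 0 = 1 ∧
  (∀ (n e j : ℕ) (P : F[X]), P ∈ Mn F e → j * e ≤ n →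
    ∑ h ∈ (Mn F n).filter (fun h => P ^ j ∣ h), lam ψ f h = lam ψ f P ^ j * AA ψ f (n - j * e)) ∧
  ∀ (n e j : ℕ) (P : F[X]), P ∈ Mn F e → n < j * e → (Mn F n).filter (fun h => P ^ j ∣ h) = ∅

/-- **W2** (norms and resultants).
PROOF.  `q = |F|`, `P = minpoly F x`, `e = deg P`, `r = [K : F]`; `e ∣ r` (`minpoly.natDegree_dvd` or
`Irreducible.natDegree_dvd_finrank`-type lemma).  `algebraMap (N y) = ∏_(i<r) y^(q^i)` (`FiniteField.algebraMap_norm_eq_prod_pow`);
for `y = aeval x g`: `y^(q^i) = aeval (x^(q^i)) g` (Frobenius is an automorphism over `F`).  `x^(q^e) = x`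
(`Irreducible.natDegree_dvd_iff_dvd_X_pow_card_pow_sub_X`), so the product is `(∏_(i<e) aeval (x^(q^i)) g)^(r/e)`.  The
`x^(q^i)`, `i < e`, are roots of `P` and different (`x^(q^i) = x^(q^j)`, `i < j < e`, gives `x^(q^(j-i)) = x` by injectivity of
Frobenius, so `e ∣ j - i` by the same lemma).  So they are all roots of `P` in `K`, each simple, `P` splits, and
`resultant P g = ∏_(i<e) aeval (x^(q^i)) g` (`resultant_eq_prod_eval` for `P.map`, `resultant_map_map`). -/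
def StW2 : Prop := ∀ (F K : Type) [Field F] [Fintype F] [Field K] [Fintype K] [Algebra F K] (x : K),
  (minpoly F x).natDegree ∣ Module.finrank F K ∧
  ∀ (g : F[X]) (n : ℕ), g.natDegree ≤ n → Algebra.norm F (aeval x g) =
    resultant (minpoly F x) g (minpoly F x).natDegree n ^
      (Module.finrank F K / (minpoly F x).natDegree)

/-- **W3** (a nonsquare value).  Hypotheses: StW2.
PROOF.  `f` is monic, squarefree, of degree `≥ 1`: `f = P f₁` with `P` irreducible and monic, `f₁` monic, `P`, `f₁` coprime.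
`K = AdjoinRoot P` (a finite field), `θ` the root, `minpoly F θ = P`, `[K : F] = deg P`.  `ψ a ≠ 1` for a unit `a`, `a = N(y)`
(`FiniteField.norm_surjective`), `y = aeval θ g`.  `A P + B f₁ = 1`; `u = g B f₁ + A P`: `u = g + P(..)`, `u = 1 + f₁(..)`.  With `n`
large `resultant f u d n = resultant P u (deg P) n * resultant f₁ u (deg f₁) n` (`resultant_mul_left`)
`= resultant P g (deg P) n * resultant f₁ 1 (deg f₁) n = N(y) * 1 = a` (`resultant_add_mul_right`, W2 with exponent `1`,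
`f₁` monic).  For monic `f` the resultant does not depend on `n` (`resultant_add_right_deg`). -/
def StW3 : Prop := ∀ (F : Type) [Field F] [Fintype F] (ψ : MulChar F ℂ) (f : F[X]), ψ ≠ 1 →
  f.Monic → Squarefree f → 1 ≤ f.natDegree →
  ∃ u : F[X], resultant f u f.natDegree u.natDegree ≠ 0 ∧
    ψ (resultant f u f.natDegree u.natDegree) ≠ 1

/-- **W4** (orthogonality modulo `f`).  Hypotheses: StW3.
PROOF.  `Φ(g) = ψ(resultant f g d n)`, any `n ≥ deg g` (`f` monic), is multiplicative (`resultant_mul_right`) and depends only on `g`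
modulo `f` (`resultant_add_mul_right`).  Let `u` be from W3; it is coprime to `f` (`resultant_eq_zero_iff` or
`isUnit_resultant_iff_isCoprime`).  `g ↦ (u g) %ₘ f` is a bijection of the finite set of the polynomials of degree `< d`, so
`T = ∑_g Φ(g) = ∑_g Φ(u g) = Φ(u) T`, `T = 0`. -/
def StW4 : Prop := ∀ (F : Type) [Field F] [Fintype F] (ψ : MulChar F ℂ) (f : F[X]), ψ ≠ 1 →
  f.Monic → Squarefree f → 1 ≤ f.natDegree →
  ∑ a : Fin f.natDegree → F, ψ (resultant f (∑ i, C (a i) * X ^ (i : ℕ)) f.natDegree f.natDegree) = 0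

/-- **W5** (`L` is a polynomial).  Hypotheses: StW1 StW4.
PROOF.  `f = C c * f₀`, `f₀` monic, `c = lc f`, `d = deg f`.  For `h` monic of degree `n`:
`resultant h f n d = c^n resultant h f₀ n d = c^n (-1)^(n d) resultant f₀ h d n` (`resultant_C_mul_right`, `resultant_comm`).
(i) `n ≥ d`: every `h ∈ Mn F n` is uniquely `f₀ u + g` with `u ∈ Mn F (n - d)` and `deg g < d` (`h /ₘ f₀`, `h %ₘ f₀`), and
`resultant f₀ (g + f₀ u) d n = resultant f₀ g d n` (`resultant_add_mul_right`), so the sum over `g` is `0` (W4; the size `n`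
can be replaced by `d` as `f₀` is monic, `resultant_add_right_deg`).
(ii) every nonzero `g` of degree `< d` is uniquely `C b * h`, `b ≠ 0`, `h ∈ Mn F n`, `n < d`;
`resultant f₀ (C b h) d = b^d resultant f₀ h d`, `ψ(b^d) = 1`; the term `g = 0` is `ψ(0) = 0` (`d ≥ 1`).  So by W4
`0 = (q-1) ∑_(n<d) ∑_(h ∈ Mn F n) ψ(resultant f₀ h d n)`, and `ψ((-1)^(n d)) = 1`, so the inner sum is
`ψ(c)^(-n) A_n`. -/
def StW5 : Prop := ∀ (F : Type) [Field F] [Fintype F] (ψ : MulChar F ℂ) (f : F[X]), ψ ≠ 1 →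
  Squarefree f → 1 ≤ f.natDegree →
  (∀ n, f.natDegree ≤ n → AA ψ f n = 0) ∧
  ((∀ b : F, b ≠ 0 → ψ b ^ f.natDegree = 1) →
    ∑ n ∈ Finset.range f.natDegree, (ψ f.leadingCoeff)⁻¹ ^ n * AA ψ f n = 0)

/-- **W6** (Euler product).  Hypotheses: StW1.
PROOF.  For `h ∈ Mn F n`: `n = ∑_(P ∈ normalizedFactors h) deg P = ∑_(e=1)^n ∑_(P ∈ Mn F e irreducible) e m_P(h)`,
`m_P(h) = #{j | 1 ≤ j ≤ n, P^j ∣ h}` (`= count P (normalizedFactors h) ≤ n`).  Multiply by `λ(h)`, sum over `h`, exchange the sums: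
`n A_n = ∑_(e,P) ∑_(j=1)^n e ∑_(h ∈ Mn F n, P^j ∣ h) λ(h) = ∑_(e,P,j, j e ≤ n) e λ(P)^j A_(n - j e)` (W1).  Sort by `r = j e`. -/
def StW6 : Prop := ∀ (F : Type) [Field F] [Fintype F] (ψ : MulChar F ℂ) (f : F[X]) (n : ℕ),
  (n : ℂ) * AA ψ f n = ∑ r ∈ Finset.Icc 1 n, PS ψ f r * AA ψ f (n - r)

/-- **W7** (character sums over extensions).  Hypotheses: StW1 StW2.
PROOF.  Group the elements `x ∈ K` by `P = minpoly F x`, of degree `e ∣ r`: `ψ(N(f(x))) = λ(P)^(r/e)` (W2).  For `P` monic irreducible of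
degree `e ∣ r`: `P ∣ X^(q^r) - X` (`Irreducible.natDegree_dvd_iff_dvd_X_pow_card_pow_sub_X`), which is `∏_(x ∈ K) (X - x)` over `K`, so
`P` has `e` different roots in `K`, and these are the `x` with `minpoly F x = P` (`minpoly.eq_of_irreducible_of_monic`). -/
def StW7 : Prop := ∀ (F K : Type) [Field F] [Fintype F] [Field K] [Fintype K] [Algebra F K]
  (ψ : MulChar F ℂ) (f : F[X]), SS ψ f K = PS ψ f (Module.finrank F K)

/-- **W8** (Newton's identities).
PROOF.  `Q = ∑_(n<d) A_n T^(d-1-n)` is monic of degree `d - 1`, `s = Q.roots`, card `d - 1`, `Q = ∏_(α ∈ s) (T - α)`; Vieta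
(`Multiset.prod_X_sub_X_eq_sum_esymm`): `A_n = (-1)^n esymm_n(s)` for `n ≤ d - 1`, and both are `0` for `n ≥ d`.  Newton
(`MvPolynomial.mul_esymm_eq_sum` evaluated at an enumeration `Fin (d-1) → ℂ` of `s`):
`n esymm_n = ∑_(r=1)^n (-1)^(r-1) esymm_(n-r) p_r`, so `n A_n = - ∑_(r=1)^n p_r A_(n-r)`, `p_r = ∑ α^r`.  As `A_0 = 1`, strong
induction on `r` gives `S_r = - p_r` for `r ≥ 1`. -/
def StW8 : Prop := ∀ (d : ℕ) (A S : ℕ → ℂ), 1 ≤ d → A 0 = 1 → (∀ n, d ≤ n → A n = 0) →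
  (∀ n : ℕ, (n : ℂ) * A n = ∑ r ∈ Finset.Icc 1 n, S r * A (n - r)) →
  ∃ s : Multiset ℂ, Multiset.card s = d - 1 ∧
    (∀ r, 1 ≤ r → S r = - (s.map (fun α => α ^ r)).sum) ∧
    ∀ z : ℂ, (s.map (fun α => z - α)).prod = ∑ n ∈ Finset.range d, A n * z ^ (d - 1 - n)

/-- **W9** (power sums).
PROOF.  `α ∈ s`, `Q = ∏_(β ∈ s.toFinset \ {α}) (X - C β)`, `Q(α) ≠ 0`, `Q(β) = 0` for the other `β ∈ s`.  With `Q = ∑_k c_k X^k`:
`∑_k c_k p_(r+k) = ∑_(β ∈ s) β^r Q(β) = m α^r Q(α)`, `m ≥ 1` the multiplicity.  So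
`m |Q(α)| |α|^r ≤ (∑_k |c_k| C ρ^k) ρ^r` for all `r ≥ 1`, and `|α| ≤ ρ` (otherwise `(|α|/ρ)^r → ∞`; for `ρ = 0` take `r = 1`). -/
def StW9 : Prop := ∀ (s : Multiset ℂ) (C ρ : ℝ), 0 ≤ ρ →
  (∀ r, 1 ≤ r → ‖(s.map (fun α => α ^ r)).sum‖ ≤ C * ρ ^ r) → ∀ α ∈ s, ‖α‖ ≤ ρ

/-- **W10** (the bound of Stepanov, over all extensions; `Pool.Agent.Helper98.TT.a6_field`, `a6_count`).
PROOF.  `ψ` the quadratic character of `F`, `K/F` finite, `y ∈ K`: `ψ(N y) = χ_K(y)`: `N y = y^((Q-1)/(q-1))` in `K`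
(`FiniteField.algebraMap_norm_eq_pow`), `(N y)^((q-1)/2) = y^((Q-1)/2)`, and `χ(z) = z^((|·|-1)/2)` in both fields
(`quadraticChar_eq_pow_of_char_ne_two'`; the values are in `{0, 1, -1}`, different in odd characteristic).  So
`SS ψ f K = ∑_(x ∈ K) χ_K(f(x))`, where `f` mapped to `K` is squarefree of the same degree (`F` is perfect: `f` is separable,
`PerfectField.separable_iff_squarefree`, `Separable.map`), and `a6_field` (`i = 1`) with `a6_count` bounds it. -/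
def StW10 : Prop := ∀ (F K : Type) [Field F] [Fintype F] [Field K] [Fintype K] [Algebra F K]
  (f : F[X]), ringChar F ≠ 2 → Squarefree f → 1 ≤ f.natDegree →
  ‖SS ((quadraticChar F).ringHomComp (Int.castRingHom ℂ)) f K‖ ≤
    (8 * f.natDegree + 12) * √(Fintype.card K)

/-- **W11** (assembly).  Hypotheses: StW1 StW5 StW6 StW7 StW8 StW9 StW10.
PROOF.  `ψ` as in W10, `≠ 1` (there are nonsquares), `ψ(b)^d = 1` for `b ≠ 0` and `d` even.  W8 for `A = AA ψ f`, `S = PS ψ f`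
(W1, W5, W6): `s`, card `d - 1`, `PS r = - ∑ α^r`.  For `r ≥ 1` let `K` be the extension of degree `r`
(`FiniteField.Extension F p r`, `p = ringChar F`, `|K| = q^r`): `PS r = SS ψ f K` (W7), so `|∑ α^r| ≤ (8d+12) (√q)^r` (W10) and
`|α| ≤ √q` for `α ∈ s` (W9).  `K = F`: `SS ψ f F = ∑_x χ(f(x))` (`Algebra.norm_self`), so `∑_x χ(f(x)) = - ∑_(α ∈ s) α`.  `d` odd:
`≤ (d-1) √q`.  `d` even: `e = ψ(lc f) = ±1`; the last formula of W8 at `z = e`: `∏ (e - α) = ∑_(n<d) A_n e^(d-1-n) =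
e^(d-1) ∑ A_n e^(-n) = 0` (W5), so `e ∈ s` and `∑_x χ(f(x)) + e = - ∑` over the other `d - 2` elements of `s`. -/
def StW11 : Prop := ∀ (F : Type) [Field F] [Fintype F] (f : F[X]), ringChar F ≠ 2 →
  Squarefree f → 1 ≤ f.natDegree →
  |((∑ x : F, (quadraticChar F (f.eval x) : ℤ) +
      if Even f.natDegree then quadraticChar F f.leadingCoeff else 0 : ℤ) : ℝ)| ≤
    2 * ((f.natDegree - 1) / 2 : ℕ) * √(Fintype.card F)

end

end Pool.Agent.Helper95.WS
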